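import Mathlib
import Pool.Agent.Lib.MP_562b47_mp.QP.AC

/-!
Energy-local form of `QP.AC` (MP_562b47_mp): what an absolutely continuous part in the set `S` of
energies gives.
-/

open MeasureTheory Set Filter Topology Complex
open scoped Real ENNReal NNReal InnerProductSpace

set_option linter.unusedSectionVars false

namespace Pool.Agent.Lib.MP_562b47_mp.QL

open Pool.Agent.Lib.MP_562b47_mp.QP

variable {Λ : Type*} [DecidableEq Λ] [Countable Λ] {E : Type*} [NormedAddCommGroup E]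
  [InnerProductSpace ℂ E] [CompleteSpace E] {c : ℝ} {e : Λ → E} {H : (Λ → ℝ) → (E →L[ℂ] E)}

/-- `μ` has no absolutely continuous part in `S` -/
def NoAC (μ : Measure ℝ) (S : Set ℝ) : Prop := ∀ᵐ x ∂(volume.restrict S), Dens μ x = 0

theorem prod_le (Λ : Type*) (c : ℝ) (hc : 0 < c) (S : Set ℝ) :
    (PP Λ c).prod (kap.restrict S) ≤ (PP Λ c).prod kap := by
  have := PP_prob Λ hc
  refine Measure.le_iff.mpr fun t ht => ?_
  rw [Measure.prod_apply ht, Measure.prod_apply ht]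
  exact lintegral_mono fun ω => Measure.restrict_le_self _

theorem acl_sing (μ : Measure ℝ) [IsFiniteMeasure μ] {S : Set ℝ}
    {t : ℕ → ℝ} (ht : ∀ k, 0 < t k)
    (ht0 : Tendsto t atTop (𝓝 0))
    (h : Tendsto (fun k => ∫ x in S, min 1 (Pois μ (⟨x, t k⟩ : ℂ)) ∂kap) atTop (𝓝 0)) :
    NoAC μ S := by
  have h1 := (pois_line_tendsto μ).comp (tendsto_within ht ht0)
  have h2 := h1.add h
  rw [add_zero] at h2
  have hD : ∀ x, 0 ≤ min 1 (Dens μ x) := fun x => le_min zero_le_one (Dens_nonneg μ x)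
  have hint : Integrable (fun x => min 1 (Dens μ x)) kap :=
    integrable_min_one (measurable_Dens μ) (Dens_nonneg μ)
  have h3 : ∫ x in S, min 1 (Dens μ x) ∂kap ≤ 0 := by
    refine ge_of_tendsto' h2 fun k => ?_
    have hPm : Measurable (fun x => Pois μ (⟨x, t k⟩ : ℂ)) := measurable_Pois_line μ (t k)
    have hP0 : ∀ x, 0 ≤ Pois μ (⟨x, t k⟩ : ℂ) := fun x => Pois_nonneg μ (z := (⟨x, t k⟩ : ℂ)) (ht k)
    have i1 : Integrable (fun x => min 1 |Pois μ (⟨x, t k⟩ : ℂ) - Dens μ x|) kap :=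
      integrable_min_one ((hPm.sub (measurable_Dens μ)).abs) (fun x => abs_nonneg _)
    have i2 : Integrable (fun x => min 1 (Pois μ (⟨x, t k⟩ : ℂ))) kap :=
      integrable_min_one hPm hP0
    have : ∫ x in S, min 1 (Dens μ x) ∂kap ≤ ∫ x in S, (min 1 |Pois μ (⟨x, t k⟩ : ℂ) - Dens μ x|
        + min 1 (Pois μ (⟨x, t k⟩ : ℂ))) ∂kap := by
      refine integral_mono hint.integrableOn (i1.add i2).integrableOn fun x => ?_
      have h4 : Dens μ x ≤ |Pois μ (⟨x, t k⟩ : ℂ) - Dens μ x| + Pois μ (⟨x, t k⟩ : ℂ) := by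
        have := neg_abs_le (Pois μ (⟨x, t k⟩ : ℂ) - Dens μ x)
        linarith
      exact (min_le_min_left 1 h4).trans (min_one_add_le' (abs_nonneg _) (hP0 x))
    rw [integral_add i1.integrableOn i2.integrableOn] at this
    refine this.trans (add_le_add_left ?_ _)
    exact setIntegral_le_integral i1 (ae_of_all _ fun x => le_min zero_le_one (abs_nonneg _))
  have h4 : ∫ x in S, min 1 (Dens μ x) ∂kap = 0 := le_antisymm h3 (integral_nonneg hD)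
  rw [integral_eq_zero_iff_of_nonneg hD hint.integrableOn] at h4
  have hac : (volume.restrict S) ≪ (kap.restrict S) := ac_kap.restrict S
  unfold NoAC
  filter_upwards [hac.ae_le h4] with s hs
  have hs' : min 1 (Dens μ s) = 0 := hs
  rcases min_choice (1:ℝ) (Dens μ s) with h6 | h6
  · rw [h6] at hs'; norm_num at hs'
  · rw [h6] at hs'; exact hs'

theorem acl_step1 (M : Model c e H) (o : Λ) {S : Set ℝ}
    (hns : ¬ ∀ᵐ ω ∂(PP Λ c), ∀ μ : Measure ℝ, IsFiniteMeasure μ → IsSpec (H ω) (e o) μ →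
      NoAC μ S) :
    ∃ m : ℝ, 0 < m ∧ ∃ η₁ : ℝ, 0 < η₁ ∧ ∀ η : ℝ, 0 < η → η ≤ η₁ →
      m ≤ ∫ ω, (∫ x in S, min 1 (Gr e H ω (⟨x, η⟩ : ℂ) o o).im ∂kap) ∂(PP Λ c) := by
  have := PP_prob Λ M.hc
  by_contra hcon
  push Not at hcon
  apply hns
  have hch : ∀ k : ℕ, ∃ η : ℝ, 0 < η ∧ η ≤ 1 / ((k:ℝ) + 1) ∧
      ∫ ω, (∫ x in S, min 1 (Gr e H ω (⟨x, η⟩ : ℂ) o o).im ∂kap) ∂(PP Λ c) < (1/2 : ℝ) ^ k := fun k =>
    hcon ((1/2 : ℝ) ^ k) (by positivity) (1 / ((k:ℝ) + 1)) (by positivity)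
  choose t ht ht1 hta using hch
  have ht0 : Tendsto t atTop (𝓝 0) :=
    tendsto_of_tendsto_of_tendsto_of_le_of_le tendsto_const_nhds
      tendsto_one_div_add_atTop_nhds_zero_nat (fun k => (ht k).le) ht1
  have hnn : ∀ k ω, 0 ≤ ∫ x in S, min 1 (Gr e H ω (⟨x, t k⟩ : ℂ) o o).im ∂kap := fun k ω =>
    integral_nonneg fun x => le_min zero_le_one (M.im_Gr_pos ω (z := (⟨x, t k⟩ : ℂ)) (ht k) o).le
  have hsum := ae_summable_of_summable_integral (μ := PP Λ c)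
    (h := fun k ω => ∫ x in S, min 1 (Gr e H ω (⟨x, t k⟩ : ℂ) o o).im ∂kap)
    (fun k => ((ac_int_min M o (ht k)).mono_measure (prod_le Λ c M.hc S)).integral_prod_left) hnn
    (Summable.of_nonneg_of_le (fun k => integral_nonneg (hnn k)) (fun k => (hta k).le)
      (summable_geometric_of_lt_one (by norm_num) (by norm_num)))
  filter_upwards [hsum] with ω hω μ hμf hμ
  have h5 : μ = sm (M.sa ω) (e o) := hμ.unique (sm_spec _ _)
  rw [h5]
  refine acl_sing _ ht ht0 ?_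
  refine hω.tendsto_atTop_zero.congr fun k => ?_
  refine integral_congr_ae (ae_of_all _ fun x => ?_)
  simp only
  rw [ac_im_eq M o (ht k)]

theorem acl_input (M : Model c e H) (o : Λ) {S : Set ℝ}
    (hns : ¬ ∀ᵐ ω ∂(PP Λ c), ∀ μ : Measure ℝ, IsFiniteMeasure μ → IsSpec (H ω) (e o) μ →
      NoAC μ S) :
    ∃ κ : ℝ, 0 < κ ∧ ∃ η₀ : ℝ, 0 < η₀ ∧ ∀ η : ℝ, 0 < η → η ≤ η₀ →
      κ ≤ ∫ x in S, (∫ ω, (Gr e H ω (⟨x, η⟩ : ℂ) o o).im / ‖den e H ω (⟨x, η⟩ : ℂ) o‖ ^ 2 ∂(PP Λ c))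
        ∂kap := by
  have := PP_prob Λ M.hc
  have hc := M.hc
  obtain ⟨m, hm, η₁, hη₁, hlow⟩ := acl_step1 M o hns
  set A : ℝ := (1 / c) ^ (1/2 : ℝ) with hA
  have hA0 : 0 < A := by positivity
  set K : ℝ := (16 * A / m) ^ 2 with hK
  have hK0 : 0 < K := by positivity
  have hKs : (1 / K) ^ (1/2 : ℝ) = m / (16 * A) := by
    have : 1 / K = (m / (16 * A)) ^ 2 := by
      rw [hK]
      field_simp
    rw [this, ← Real.sqrt_eq_rpow, Real.sqrt_sq (by positivity)]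
  refine ⟨m / 2 / (1 + K) ^ 2, by positivity, η₁, hη₁, fun η hη hη1 => ?_⟩
  have h1 := hlow η hη hη1
  have hle := prod_le Λ c hc S
  have i1 := (ac_int_min M o hη).mono_measure hle
  obtain ⟨i2', h2'⟩ := ac_half M o hη
  have i2 := i2'.mono_measure hle
  have h2 : ∫ p : (Λ → ℝ) × ℝ, ‖Gr e H p.1 (⟨p.2, η⟩ : ℂ) o o‖ ^ (1/2 : ℝ)
      ∂((PP Λ c).prod (kap.restrict S)) ≤ 8 * A := by
    refine le_trans ?_ h2'
    refine integral_mono_measure hle (ae_of_all _ fun p => ?_) i2'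
    simp only [Pi.zero_apply]
    positivity
  have hcd : Continuous fun p : (Λ → ℝ) × ℝ =>
      (Gr e H p.1 (⟨p.2, η⟩ : ℂ) o o).im / ‖den e H p.1 (⟨p.2, η⟩ : ℂ) o‖ ^ 2 := by
    refine (Complex.continuous_im.comp (ac_cont_Gr M o hη)).div
      ((ac_cont_den M o hη).norm.pow 2) fun p => ?_
    have := M.one_le_norm_den p.1 (z := (⟨p.2, η⟩ : ℂ)) hη o
    positivity
  have i3 : Integrable (fun p : (Λ → ℝ) × ℝ =>
      (Gr e H p.1 (⟨p.2, η⟩ : ℂ) o o).im / ‖den e H p.1 (⟨p.2, η⟩ : ℂ) o‖ ^ 2)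
      ((PP Λ c).prod (kap.restrict S)) := by
    refine Integrable.of_bound (C := 1 / η) hcd.aestronglyMeasurable (ae_of_all _ fun q => ?_)
    have h3 := M.im_Gr_pos q.1 (z := (⟨q.2, η⟩ : ℂ)) hη o
    have h4 := M.one_le_norm_den q.1 (z := (⟨q.2, η⟩ : ℂ)) hη o
    have h5 := M.norm_Gr_le q.1 (z := (⟨q.2, η⟩ : ℂ)) hη o o
    have h6 := Complex.abs_im_le_norm (Gr e H q.1 (⟨q.2, η⟩ : ℂ) o o)
    rw [abs_of_pos h3] at h6
    rw [Real.norm_of_nonneg (by positivity)]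
    refine (div_le_self h3.le ?_).trans (h6.trans h5)
    exact one_le_pow₀ h4
  have h3 : ∫ p : (Λ → ℝ) × ℝ, (min 1 (Gr e H p.1 (⟨p.2, η⟩ : ℂ) o o).im
        - (1 / K) ^ (1/2 : ℝ) * ‖Gr e H p.1 (⟨p.2, η⟩ : ℂ) o o‖ ^ (1/2 : ℝ))
          ∂((PP Λ c).prod (kap.restrict S))
      ≤ ∫ p : (Λ → ℝ) × ℝ, (1 + K) ^ 2 * ((Gr e H p.1 (⟨p.2, η⟩ : ℂ) o o).im
        / ‖den e H p.1 (⟨p.2, η⟩ : ℂ) o‖ ^ 2) ∂((PP Λ c).prod (kap.restrict S)) := by
    refine integral_mono (i1.sub (i2.const_mul _)) (i3.const_mul _) fun p => ?_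
    exact ac_point (M.im_Gr_pos p.1 (z := (⟨p.2, η⟩ : ℂ)) hη o) hK0
  rw [integral_sub i1 (i2.const_mul _), integral_const_mul, integral_const_mul, hKs,
    integral_prod _ i1, integral_prod_symm _ i3] at h3
  have h4 : m / (16 * A) * ∫ p : (Λ → ℝ) × ℝ, ‖Gr e H p.1 (⟨p.2, η⟩ : ℂ) o o‖ ^ (1/2 : ℝ)
      ∂((PP Λ c).prod (kap.restrict S)) ≤ m / 2 := by
    calc m / (16 * A) * ∫ p : (Λ → ℝ) × ℝ, ‖Gr e H p.1 (⟨p.2, η⟩ : ℂ) o o‖ ^ (1/2 : ℝ)
          ∂((PP Λ c).prod (kap.restrict S)) ≤ m / (16 * A) * (8 * A) := by gcongr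
      _ = m / 2 := by field_simp; norm_num
  rw [div_le_iff₀ (by positivity)]
  linarith

end Pool.Agent.Lib.MP_562b47_mp.QL
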