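import Mathlib
import Pool.Agent.Lib.MP_562b47_mp.WindowB
import Pool.Agent.Lib.MP_562b47_mp.QL.Sum

/-!
Energy-local form of the Pólya criterion (MP_562b47_mp), `d = 2`: a diffusive upper bound for the Green
function (with a logarithm to spare) at the energies of the set `S` excludes absolutely continuous
spectrum in `S`.
-/

open MeasureTheory Set Filter Topology Complex
open scoped Real ENNReal NNReal InnerProductSpace

set_option linter.unusedSectionVars false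

namespace Pool.Agent.Lib.MP_562b47_mp.QL

open Pool.Agent.Lib.MP_562b47_mp.QP

variable {d : ℕ}

/-- `E ∑_x |x|² |G(0,x;z)|²` for the Anderson model on `ℤ^d` with the uniform law on `[-c, c]` -/
noncomputable def DE (d : ℕ) (c : ℝ) (z : ℂ) : ℝ≥0∞ :=
  ∫⁻ ω, ∑' x : Fin d → ℤ, ENNReal.ofReal (∑ i, (x i : ℝ) ^ 2)
    * ‖Gr (ee d) (HH d c) ω z 0 x‖ₑ ^ 2 ∂(PP (Fin d → ℤ) c)

theorem ql_ward {c : ℝ} (hc : 0 < c) {z : ℂ} (hz : 0 < z.im) (B : Finset (Fin d → ℤ))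
    (ω : (Fin d → ℤ) → ℝ) :
    ENNReal.ofReal ((Gr (ee d) (HH d c) ω z 0 0).im
        - z.im * ∑ y ∈ B, ‖Gr (ee d) (HH d c) ω z 0 y‖ ^ 2)
      = ENNReal.ofReal z.im * ∑' y : Fin d → ℤ,
        (if y ∈ B then 0 else ‖Gr (ee d) (HH d c) ω z 0 y‖ₑ ^ 2) := by
  set M := model (d := d) hc with hM
  have h1 : (Gr (ee d) (HH d c) ω z 0 0).im = z.im * ‖Rv (HH d c ω) z (ee d 0)‖ ^ 2 :=
    im_inner_Rv (M.sa ω) hz.ne' (ee d 0)
  have h2 : ∀ y, Gr (ee d) (HH d c) ω z 0 y = ⟪ee d y, Rv (HH d c ω) z (ee d 0)⟫_ℂ := fun y => by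
    rw [M.Gr_symm ω hz 0 y]; rfl
  simp_rw [h1, h2]
  rw [← out_parseval M B, ← ENNReal.ofReal_mul hz.le]
  congr 1
  ring

theorem ql_out {c : ℝ} (hc : 0 < c) {z : ℂ} (hz : 0 < z.im) {R : ℕ} (hR : 0 < R) {a : ℝ} (ha : 0 ≤ a)
    (h : DE d c z ≤ ENNReal.ofReal a) :
    ∫ ω, ((Gr (ee d) (HH d c) ω z 0 0).im
        - z.im * ∑ y ∈ cube d R, ‖Gr (ee d) (HH d c) ω z 0 y‖ ^ 2) ∂(PP (Fin d → ℤ) c)
      ≤ z.im * a / (R:ℝ) ^ 2 := by
  set M := model (d := d) hc with hM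
  have hR0 : (0:ℝ) < (R:ℝ) ^ 2 := by positivity
  have hnn : ∀ ω, 0 ≤ (Gr (ee d) (HH d c) ω z 0 0).im
        - z.im * ∑ y ∈ cube d R, ‖Gr (ee d) (HH d c) ω z 0 y‖ ^ 2 := fun ω => by
    have := ward_G M 0 ω hz (cube d R)
    linarith
  have hcont : Continuous fun ω => (Gr (ee d) (HH d c) ω z 0 0).im
        - z.im * ∑ y ∈ cube d R, ‖Gr (ee d) (HH d c) ω z 0 y‖ ^ 2 := by
    refine (Complex.continuous_im.comp (M.continuous_Gr continuous_id continuous_const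
      (fun _ => hz) 0 0)).sub (continuous_const.mul (continuous_finsetSum _ fun y _ => ?_))
    exact (M.continuous_Gr continuous_id continuous_const (fun _ => hz) 0 y).norm.pow 2
  rw [integral_eq_lintegral_of_nonneg_ae (ae_of_all _ hnn) hcont.aestronglyMeasurable]
  refine ENNReal.toReal_le_of_le_ofReal (by positivity) ?_
  have h1 : ENNReal.ofReal ((R:ℝ) ^ 2) * ∫⁻ ω, ENNReal.ofReal ((Gr (ee d) (HH d c) ω z 0 0).im
        - z.im * ∑ y ∈ cube d R, ‖Gr (ee d) (HH d c) ω z 0 y‖ ^ 2) ∂(PP (Fin d → ℤ) c)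
      ≤ ENNReal.ofReal z.im * DE d c z := by
    unfold DE
    rw [← lintegral_const_mul' _ _ ENNReal.ofReal_ne_top,
      ← lintegral_const_mul' _ _ ENNReal.ofReal_ne_top]
    refine lintegral_mono fun ω => ?_
    rw [ql_ward hc hz, mul_left_comm]
    refine mul_le_mul' le_rfl ?_
    rw [← ENNReal.tsum_mul_left]
    refine ENNReal.tsum_le_tsum fun x => ?_
    by_cases hx : x ∈ cube d R
    · simp [hx]
    · rw [if_neg hx]
      gcongr
      exact sq_le_of_notMem hx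
  have h2 : ENNReal.ofReal ((R:ℝ) ^ 2) * ∫⁻ ω, ENNReal.ofReal ((Gr (ee d) (HH d c) ω z 0 0).im
        - z.im * ∑ y ∈ cube d R, ‖Gr (ee d) (HH d c) ω z 0 y‖ ^ 2) ∂(PP (Fin d → ℤ) c)
      ≤ ENNReal.ofReal ((R:ℝ) ^ 2) * ENNReal.ofReal (z.im * a / (R:ℝ) ^ 2) := by
    refine h1.trans ?_
    rw [← ENNReal.ofReal_mul hR0.le]
    calc ENNReal.ofReal z.im * DE d c z ≤ ENNReal.ofReal z.im * ENNReal.ofReal a := by gcongr
      _ = ENNReal.ofReal ((R:ℝ) ^ 2 * (z.im * a / (R:ℝ) ^ 2)) := by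
          rw [← ENNReal.ofReal_mul hz.le]
          congr 1
          field_simp
  exact (ENNReal.mul_le_mul_iff_right (ENNReal.ofReal_pos.mpr hR0).ne' ENNReal.ofReal_ne_top).mp h2

/-- **Local Pólya criterion.** -/
theorem local_sing {c : ℝ} (hc : 0 < c) {S : Set ℝ} (hS : MeasurableSet S) {C η₁ : ℝ}
    (hη₁ : 0 < η₁)
    (h : ∀ E ∈ S, ∀ η : ℝ, 0 < η → η < η₁ →
      DE 2 c ⟨E, η⟩ ≤ ENNReal.ofReal (C * (1 + Real.log (1 / η)) / η ^ 2)) :
    ∀ᵐ ω ∂(PP (Fin 2 → ℤ) c), ∀ μ : Measure ℝ, IsFiniteMeasure μ →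
      IsSpec (HH 2 c ω) (ee 2 0) μ → NoAC μ S := by
  have := PP_prob (Fin 2 → ℤ) hc
  set M := model (d := 2) hc with hM
  by_contra hns
  obtain ⟨κ, hκ, hκ1, C', n₀, hC', hsum⟩ := main_sum M (covOp_HH hc) hns
  -- a positive constant instead of `C`
  set C₁ : ℝ := max C 1 with hC₁
  have hC₁1 : 1 ≤ C₁ := le_max_right _ _
  obtain ⟨n₁, hn₁⟩ : ∃ n₁ : ℕ, len c n₁ < min η₁ 1 := by
    have h1 : Tendsto (fun n : ℕ => c * (1/2 : ℝ) ^ n) atTop (𝓝 (c * 0)) :=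
      (tendsto_pow_atTop_nhds_zero_of_lt_one (by norm_num) (by norm_num)).const_mul c
    rw [mul_zero] at h1
    obtain ⟨n, hn⟩ := (h1.eventually (gt_mem_nhds (show (0:ℝ) < min η₁ 1 by positivity))).exists
    refine ⟨n, ?_⟩
    unfold len
    have : c / 2 ^ n = c * (1/2 : ℝ) ^ n := by rw [div_eq_mul_inv, one_div, inv_pow]
    rw [this]; exact hn
  have hlen : ∀ n, n₁ ≤ n → len c n < min η₁ 1 := by
    intro n hn
    refine lt_of_le_of_lt ?_ hn₁
    unfold len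
    exact div_le_div_of_nonneg_left hc.le (by positivity) (pow_le_pow_right₀ (by norm_num) hn)
  set a : ℕ → ℝ := fun n => 2 * C₁ * (1 + Real.log (1 / len c n)) / (κ * len c n) with ha
  set R : ℕ → ℕ := fun n => ⌈√(a n)⌉₊ with hR
  have hlog : ∀ n, n₁ ≤ n → 0 ≤ Real.log (1 / len c n) := by
    intro n hn
    have h1 := hlen n hn
    have h2 := len_pos hc n
    apply Real.log_nonneg
    rw [le_div_iff₀ h2, one_mul]
    exact h1.le.trans (min_le_right _ _)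
  have ha0 : ∀ n, n₁ ≤ n → 0 < a n := by
    intro n hn
    have h1 := hlog n hn
    have h2 := len_pos hc n
    simp only [ha]
    positivity
  have hRpos : ∀ n, n₁ ≤ n → 0 < R n := by
    intro n hn
    simp only [hR]
    exact Nat.ceil_pos.mpr (Real.sqrt_pos.mpr (ha0 n hn))
  have hRa : ∀ n, n₁ ≤ n → a n ≤ (R n : ℝ) ^ 2 := by
    intro n hn
    have h1 : √(a n) ≤ (R n : ℝ) := Nat.le_ceil _
    have h2 := Real.sqrt_nonneg (a n)
    have h3 := Real.sq_sqrt (ha0 n hn).le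
    nlinarith
  have hout : ∀ n, n₁ ≤ n → ∫ u in S, (∫ ω, ((Gr (ee 2) (HH 2 c) ω (⟨u, len c n⟩ : ℂ) 0 0).im
            - len c n * ∑ y ∈ cube 2 (R n), ‖Gr (ee 2) (HH 2 c) ω (⟨u, len c n⟩ : ℂ) 0 y‖ ^ 2)
              ∂(PP (Fin 2 → ℤ) c)) ∂kap ≤ κ / 2 := by
    intro n hn
    have hl := len_pos hc n
    have hlg := hlog n hn
    have h1 : ∀ u ∈ S, (∫ ω, ((Gr (ee 2) (HH 2 c) ω (⟨u, len c n⟩ : ℂ) 0 0).im
            - len c n * ∑ y ∈ cube 2 (R n), ‖Gr (ee 2) (HH 2 c) ω (⟨u, len c n⟩ : ℂ) 0 y‖ ^ 2)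
              ∂(PP (Fin 2 → ℤ) c)) ≤ κ / 2 := by
      intro u hu
      have h2 := h u hu (len c n) hl ((hlen n hn).trans_le (min_le_left _ _))
      have h3 : DE 2 c ⟨u, len c n⟩
          ≤ ENNReal.ofReal (C₁ * (1 + Real.log (1 / len c n)) / len c n ^ 2) := by
        refine h2.trans (ENNReal.ofReal_le_ofReal ?_)
        gcongr
        exact le_max_left _ _
      have h4 := ql_out hc (z := (⟨u, len c n⟩ : ℂ)) hl (hRpos n hn) (by positivity) h3
      refine h4.trans ?_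
      have h5 := hRa n hn
      have h6 : (0:ℝ) < (R n : ℝ) ^ 2 := lt_of_lt_of_le (ha0 n hn) h5
      rw [div_le_iff₀ h6]
      have h7 : (⟨u, len c n⟩ : ℂ).im * (C₁ * (1 + Real.log (1 / len c n)) / len c n ^ 2)
          = κ / 2 * a n := by
        simp only [ha]
        field_simp
      rw [h7]
      gcongr
    have hmass : ∫ _u in S, κ / 2 ∂kap ≤ κ / 2 := by
      rw [setIntegral_const, smul_eq_mul]
      have : kap.real S ≤ 1 := measureReal_le_one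
      nlinarith
    refine le_trans (integral_mono_of_nonneg (ae_of_all _ fun u => ?_)
      (integrable_const _) ((ae_restrict_iff' hS).mpr (ae_of_all _ fun u hu => h1 u hu))) hmass
    refine integral_nonneg fun ω => ?_
    have := ward_G M 0 ω (z := (⟨u, len c n⟩ : ℂ)) hl (cube 2 (R n))
    simp only [Pi.zero_apply]
    exact sub_nonneg.mpr this
  -- size of the cubes
  obtain ⟨A, hA0, hA⟩ : ∃ A : ℝ, 0 < A ∧ ∀ n, n₁ ≤ n →
      1 / (A * ((n:ℝ) + 1)) ≤ (2:ℝ) ^ n / (cube 2 (R n)).card := by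
    set b : ℝ := 1 + |Real.log c| + Real.log 2 with hb
    have hb0 : 0 < b := by
      have := Real.log_pos (by norm_num : (1:ℝ) < 2)
      positivity
    refine ⟨16 * C₁ * b / (κ * c) + 18, by positivity, fun n hn => ?_⟩
    have hl := len_pos hc n
    have h1 : ((cube 2 (R n)).card : ℝ) ≤ 8 * a n + 18 := by
      rw [card_cube]
      push_cast
      have h2 : (R n : ℝ) ≤ √(a n) + 1 := (Nat.ceil_lt_add_one (Real.sqrt_nonneg _)).le
      have h3 := Real.sq_sqrt (ha0 n hn).le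
      have h4 := Real.sqrt_nonneg (a n)
      have h5 : (0:ℝ) ≤ R n := Nat.cast_nonneg _
      calc (2 * (R n : ℝ) + 1) ^ 2 ≤ (2 * (√(a n) + 1) + 1) ^ 2 := by gcongr
        _ ≤ 8 * √(a n) ^ 2 + 18 := by nlinarith [sq_nonneg (2 * √(a n) - 3)]
        _ = 8 * a n + 18 := by rw [h3]
    have h2 : a n ≤ 2 * C₁ * b / (κ * c) * (((n:ℝ) + 1) * 2 ^ n) := by
      have h3 : Real.log (1 / len c n) ≤ |Real.log c| + n * Real.log 2 := by
        unfold len
        rw [one_div_div, Real.log_div (by positivity) hc.ne', Real.log_pow]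
        have := neg_abs_le (Real.log c)
        linarith
      have h4 : 1 + Real.log (1 / len c n) ≤ b * ((n:ℝ) + 1) := by
        have hn0 : (0:ℝ) ≤ n := Nat.cast_nonneg _
        have hl2 := Real.log_pos (by norm_num : (1:ℝ) < 2)
        have habs := abs_nonneg (Real.log c)
        rw [hb]
        nlinarith [mul_nonneg hn0 habs]
      have h5 : a n = 2 * C₁ * (1 + Real.log (1 / len c n)) / (κ * c) * 2 ^ n := by
        simp only [ha]
        unfold len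
        field_simp
      rw [h5]
      calc 2 * C₁ * (1 + Real.log (1 / len c n)) / (κ * c) * 2 ^ n
          ≤ 2 * C₁ * (b * ((n:ℝ) + 1)) / (κ * c) * 2 ^ n := by gcongr
        _ = 2 * C₁ * b / (κ * c) * (((n:ℝ) + 1) * 2 ^ n) := by ring
    have h3 : ((cube 2 (R n)).card : ℝ)
        ≤ (16 * C₁ * b / (κ * c) + 18) * ((n:ℝ) + 1) * 2 ^ n := by
      have h4 : (1:ℝ) ≤ ((n:ℝ) + 1) * 2 ^ n := by
        have hn0 : (0:ℝ) ≤ n := Nat.cast_nonneg _
        have h5 : (1:ℝ) ≤ 2 ^ n := one_le_pow₀ (by norm_num)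
        nlinarith
      calc ((cube 2 (R n)).card : ℝ) ≤ 8 * a n + 18 := h1
        _ ≤ 8 * (2 * C₁ * b / (κ * c) * (((n:ℝ) + 1) * 2 ^ n)) + 18 * (((n:ℝ) + 1) * 2 ^ n) := by
            gcongr
            linarith
        _ = _ := by ring
    have hcard : (0:ℝ) < (cube 2 (R n)).card := by
      rw [card_cube]; positivity
    rw [div_le_div_iff₀ (by positivity) hcard, one_mul]
    calc ((cube 2 (R n)).card : ℝ) ≤ (16 * C₁ * b / (κ * c) + 18) * ((n:ℝ) + 1) * 2 ^ n := h3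
      _ = 2 ^ n * ((16 * C₁ * b / (κ * c) + 18) * ((n:ℝ) + 1)) := by ring
  -- divergence
  set m := max n₀ n₁ with hm
  have hdiv := Real.tendsto_sum_range_one_div_nat_succ_atTop
  obtain ⟨N, hN⟩ := (hdiv.eventually_gt_atTop
    (A * C' + ∑ i ∈ Finset.range m, (1 / ((i:ℝ) + 1)))).exists
  have hfin := hsum (Finset.Ico m N) (fun n => cube 2 (R n))
    (fun n hn => (le_max_left _ _).trans (Finset.mem_Ico.mp hn).1)
    (fun n hn => hout n ((le_max_right _ _).trans (Finset.mem_Ico.mp hn).1))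
  have h1 : ∑ n ∈ Finset.Ico m N, 1 / (A * ((n:ℝ) + 1)) ≤ C' := by
    refine le_trans (Finset.sum_le_sum fun n hn => ?_) hfin
    exact hA n ((le_max_right _ _).trans (Finset.mem_Ico.mp hn).1)
  have h2 : ∑ n ∈ Finset.Ico m N, 1 / ((n:ℝ) + 1) ≤ A * C' := by
    have h3 : ∑ n ∈ Finset.Ico m N, 1 / ((n:ℝ) + 1)
        = A * ∑ n ∈ Finset.Ico m N, 1 / (A * ((n:ℝ) + 1)) := by
      rw [Finset.mul_sum]
      refine Finset.sum_congr rfl fun n _ => ?_
      field_simp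
    rw [h3]
    gcongr
  have h3 : ∑ i ∈ Finset.range N, 1 / ((i:ℝ) + 1)
      ≤ ∑ i ∈ Finset.range m, 1 / ((i:ℝ) + 1) + ∑ n ∈ Finset.Ico m N, 1 / ((n:ℝ) + 1) := by
    rw [← Finset.sum_union]
    · refine Finset.sum_le_sum_of_subset_of_nonneg ?_ fun i _ _ => by positivity
      intro i hi
      rw [Finset.mem_union, Finset.mem_range, Finset.mem_Ico]
      rw [Finset.mem_range] at hi
      omega
    · rw [Finset.disjoint_left]
      intro i hi hi'
      rw [Finset.mem_range] at hi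
      rw [Finset.mem_Ico] at hi'
      omega
  linarith

/-- The sets `S n` cover almost all energies: then the spectrum is purely singular. -/
theorem all_sing {c : ℝ} (hc : 0 < c) {S : ℕ → Set ℝ} (hS : ∀ n, MeasurableSet (S n))
    (hcov : ∀ᵐ x ∂(volume : Measure ℝ), ∃ n, x ∈ S n)
    (h : ∀ n, ∃ C η₁ : ℝ, 0 < η₁ ∧ ∀ E ∈ S n, ∀ η : ℝ, 0 < η → η < η₁ →
      DE 2 c ⟨E, η⟩ ≤ ENNReal.ofReal (C * (1 + Real.log (1 / η)) / η ^ 2)) :
    ∀ᵐ ω ∂(PP (Fin 2 → ℤ) c), ∀ μ : Measure ℝ, IsFiniteMeasure μ →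
      IsSpec (HH 2 c ω) (ee 2 0) μ → μ ⟂ₘ volume := by
  have h1 : ∀ n, ∀ᵐ ω ∂(PP (Fin 2 → ℤ) c), ∀ μ : Measure ℝ, IsFiniteMeasure μ →
      IsSpec (HH 2 c ω) (ee 2 0) μ → NoAC μ (S n) := by
    intro n
    obtain ⟨C, η₁, hη₁, h2⟩ := h n
    exact local_sing hc (hS n) hη₁ h2
  rw [← ae_all_iff] at h1
  filter_upwards [h1] with ω hω μ hμ hs
  have h2 : ∀ᵐ x ∂(volume : Measure ℝ), ∀ n, x ∈ S n → Dens μ x = 0 := by
    rw [ae_all_iff]
    intro n
    exact (ae_restrict_iff' (hS n)).mp (hω n μ hμ hs)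
  rw [← Measure.rnDeriv_eq_zero]
  filter_upwards [h2, hcov, Measure.rnDeriv_lt_top μ volume] with x hx hx2 hx3
  obtain ⟨n, hn⟩ := hx2
  have h5 := hx n hn
  unfold Dens at h5
  have h8 := (mul_eq_zero.mp h5).resolve_left Real.pi_ne_zero
  rcases (ENNReal.toReal_eq_zero_iff _).mp h8 with h | h
  · exact h
  · exact absurd h hx3.ne

end Pool.Agent.Lib.MP_562b47_mp.QL
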